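import Pool.Agent.Helper743.FMRun
import Pool.Agent.Helper743.KTHalt

set_option autoImplicit false

/-! Problem MP_471da3_lc, question Q1: a minimal pair of almost complete degrees. -/

namespace Pool.Agent.Results.MP_471da3_lc.AlmostCompletePair

open Pool.Agent.Helper743 Pool.Agent.Helper743.KT Nat.Partrec

/-- `A` is Turing reducible to `B`, for sets given by their characteristic functions. -/
def Below (A B : ℕ → Bool) : Prop :=
  TuringReducible (fun n => Part.some (A n).toNat : ℕ →. ℕ)
    (fun n => Part.some (B n).toNat : ℕ →. ℕ)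

/-- `f` is upper semicomputable relative to the set `B`: the set of the pairs `(n, k)` with
`f n ≤ k` is the domain of a function that is partial computable relative to `B`. -/
def UpperSemi (B : ℕ → Bool) (f : ℕ → ℕ) : Prop :=
  ∃ φ : ℕ →. ℕ, TuringReducible φ (fun n => Part.some (B n).toNat : ℕ →. ℕ) ∧
    ∀ n k : ℕ, (φ (Nat.pair n k)).Dom ↔ f n ≤ k

/-- All finite sums of the numbers `2 ^ (- f n)` are at most `1`. -/
def KraftSum (f : ℕ → ℕ) : Prop := ∀ s : Finset ℕ, ∑ n ∈ s, (1 / 2 : ℝ) ^ f n ≤ 1

/-- `κ` is (a version of) prefix-free Kolmogorov complexity relative to `B`, on natural numbers: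
the least function up to an additive constant among the functions which are upper semicomputable
relative to `B` and satisfy the Kraft inequality. -/
def IsComplexity (B : ℕ → Bool) (κ : ℕ → ℕ) : Prop :=
  UpperSemi B κ ∧ KraftSum κ ∧
    ∀ f : ℕ → ℕ, UpperSemi B f → KraftSum f → ∃ c : ℕ, ∀ n, κ n ≤ f n + c

/-- `X` is K-trivial relative to `B`: the complexity relative to `B` of the string of the first
`n` bits of `X` exceeds the complexity relative to `B` of `n` by at most a constant. Strings
are coded by natural numbers in the standard way. -/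
def KTrivialRel (X B : ℕ → Bool) : Prop :=
  ∃ κ : ℕ → ℕ, IsComplexity B κ ∧
    ∃ c : ℕ, ∀ n : ℕ, κ (Encodable.encode (List.ofFn (fun i : Fin n => X i))) ≤ κ n + c

/-- The halting problem. -/
noncomputable def haltingSet (n : ℕ) : Bool :=
  open Classical in decide (Code.eval (Denumerable.ofNat Code n) n).Dom

/-- There are almost complete sets `A` and `B`, both Turing incomplete and `A` even below the
halting problem, which form a minimal pair: they are not computable, and every set computable
from both is computable. -/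
theorem result : ∃ A B : ℕ → Bool, KTrivialRel haltingSet A ∧ KTrivialRel haltingSet B ∧
    Below A haltingSet ∧ ¬ Below haltingSet A ∧ ¬ Below haltingSet B ∧
    ¬ Computable A ∧ ¬ Computable B ∧
    ∀ D : ℕ → Bool, Below D A → Below D B → Computable D := by
  classical
  have hUp : ∀ (B : ℕ → Bool) (f : ℕ → ℕ), UpperSemi B f ↔ UpS (fun n => (B n).toNat) f := by
    intro B f
    constructor
    · rintro ⟨φ, h1, h2⟩
      exact ⟨φ, RecursiveIn.iff_nat.1 h1, h2⟩
    · rintro ⟨φ, h1, h2⟩
      exact ⟨φ, RecursiveIn.iff_nat.2 h1, h2⟩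
  have hOpt : ∀ (B : ℕ → Bool) (κ : ℕ → ℕ), Opt (fun n => (B n).toNat) κ → IsComplexity B κ := by
    intro B κ h
    refine ⟨(hUp B κ).2 h.1, h.2.1, fun f hf hk => h.2.2 f ((hUp B f).1 hf) hk⟩
  have hK0 : (fun n => (haltingSet n).toNat) = K0 := by
    funext n
    unfold haltingSet K0
    by_cases h : (Code.eval (Denumerable.ofNat Code n) n).Dom <;> simp [h]
  have hBool : ∀ D : ℕ → Bool, Computable (fun n => (D n).toNat) → Computable D := by
    intro D h
    have h2 : Primrec (fun n : ℕ => decide (n = 1)) :=
      (PrimrecPred.decide (p := fun n : ℕ => n = 1) (Primrec.eq.comp Primrec.id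
        (Primrec.const 1)))
    refine (h2.to_comp.comp h).of_eq ?_
    intro n
    cases D n <;> decide
  have hBool' : ∀ D : ℕ → Bool, Computable D → Computable (fun n => (D n).toNat) := by
    intro D h
    have h1 := Computable.cond h (Computable.const 1) (Computable.const 0)
    refine h1.of_eq ?_
    intro n
    cases D n <;> rfl
  -- the first set: an index of the halting problem
  obtain ⟨c, hc⟩ := re_code K_re
  set a := Encodable.encode c with ha
  have hWA : AC.WA a = K := by
    funext n
    unfold AC.WA K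
    rw [Nat.unpair_pair, ha, Denumerable.ofNat_encode]
    by_cases h : (Code.eval (Denumerable.ofNat Code n.unpair.1) n.unpair.2).Dom
    · rw [if_pos ((hc n).1 h), if_pos h]
    · rw [if_neg (fun h1 => h ((hc n).2 h1)), if_neg h]
  have hA : ¬ TR K (AC.GG a) := by
    have := AC.avoids a (by rw [hWA]; exact K_not_computable)
    rwa [hWA] at this
  -- the family of all noncomputable functions below the halting problem
  have hcount : (Set.range (fun D : {D : ℕ → ℕ // TR D K} => D.1)).Countable := by
    have hsub : Countable {D : ℕ → ℕ // TR D K} := by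
      have hch : ∀ D : {D : ℕ → ℕ // TR D K}, ∃ e, ∀ x,
          (∃ n y, PR.evR e (pre K n) x = y + 1) ∧
          ∀ n y, PR.evR e (pre K n) x = y + 1 → y = D.1 x := by
        rintro ⟨D, hD⟩
        obtain ⟨ev, hev, hmono, hcor⟩ := use_principle K _ hD
        obtain ⟨e, he⟩ := AC.ev_code hev
        refine ⟨e, fun x => ⟨?_, ?_⟩⟩
        · obtain ⟨n, hn⟩ := (hcor x (D x)).1 (Part.mem_some _)
          refine ⟨n, D x, ?_⟩
          rw [he, hn]; simp
        · intro n y h
          rw [he] at h
          cases h3 : ev (pre K n) x with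
          | none => rw [h3] at h; simp at h
          | some v =>
            rw [h3, Encodable.encode_some] at h
            simp at h
            subst h
            have h4 : v ∈ ((D : ℕ →. ℕ) x) := (hcor x v).2 ⟨n, h3⟩
            exact Part.mem_some_iff.1 h4
      choose e he using hch
      have hinj : Function.Injective e := by
        intro D D' h
        apply Subtype.ext
        funext x
        obtain ⟨n, y, hy⟩ := (he D x).1
        have h1 := (he D x).2 n y hy
        rw [h] at hy
        have h2 := (he D' x).2 n y hy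
        rw [← h1, ← h2]
      exact hinj.countable
    exact Set.countable_range _
  -- enumerate it
  obtain ⟨C, hC⟩ : ∃ C : ℕ → ℕ → ℕ, ∀ D : ℕ → ℕ, TR D K → ∃ n, C n = D := by
    have hne : (Set.range (fun D : {D : ℕ → ℕ // TR D K} => D.1)).Nonempty :=
      ⟨K, ⟨⟨K, TR.refl K⟩, rfl⟩⟩
    obtain ⟨C, hC⟩ := hcount.exists_eq_range hne
    refine ⟨C, fun D hD => ?_⟩
    have h1 : D ∈ Set.range (fun D : {D : ℕ → ℕ // TR D K} => D.1) := ⟨⟨D, hD⟩, rfl⟩
    rw [hC] at h1
    exact h1
  have hB : ∀ D : ℕ → ℕ, TR D K → TR D (FM.GG C) → Computable D := by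
    intro D h1 h2
    obtain ⟨n, hn⟩ := hC D h1
    by_contra h3
    apply FM.avoids C n (by rw [hn]; exact h3)
    rw [hn]; exact h2
  have hKB : ¬ TR K (FM.GG C) := fun h => K_not_computable (hB K (TR.refl K) h)
  have hGnc : ∀ G : ℕ → ℕ, ¬ Computable G → ¬ Computable (gr G) := by
    intro G h1 h2
    exact h1 (TR_const (hBool' _ h2) (TR_gr G))
  refine ⟨gr (AC.GG a), gr (FM.GG C), ?_, ?_, ?_, ?_, ?_, ?_, ?_, ?_⟩
  · refine ⟨KG (AC.GG a), hOpt _ _ (Opt_of_TR (TR_gr _) (gr_TR _) (Opt_KG _)), ?_⟩
    obtain ⟨d, hd⟩ := halting_triv a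
    refine ⟨d, fun n => ?_⟩
    have h2 := hd n
    rw [kstr_eq] at h2
    exact h2
  · refine ⟨KG (FM.GG C), hOpt _ _ (Opt_of_TR (TR_gr _) (gr_TR _) (Opt_KG _)), ?_⟩
    obtain ⟨d, hd⟩ := FM.halting_triv C
    refine ⟨d, fun n => ?_⟩
    have h2 := hd n
    rw [kstr_eq] at h2
    exact h2
  · have h1 : TR (fun n => (gr (AC.GG a) n).toNat) (fun n => (haltingSet n).toNat) := by
      rw [hK0]
      exact TR.trans (gr_TR _) (TR.trans (AC.limC_GG a).TR_K K_TR_K0)
    exact TR_iff.1 h1
  · intro h
    have h1 : TR (fun n => (haltingSet n).toNat) (fun n => (gr (AC.GG a) n).toNat) := TR_iff.2 h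
    rw [hK0] at h1
    exact hA (TR.trans K_TR_K0 (TR.trans h1 (gr_TR _)))
  · intro h
    have h1 : TR (fun n => (haltingSet n).toNat) (fun n => (gr (FM.GG C) n).toNat) := TR_iff.2 h
    rw [hK0] at h1
    exact hKB (TR.trans K_TR_K0 (TR.trans h1 (gr_TR _)))
  · exact hGnc _ (not_comp_of_triv (halting_triv a))
  · exact hGnc _ (not_comp_of_triv (FM.halting_triv C))
  · intro D h1 h2
    have h1' : TR (fun n => (D n).toNat) (fun n => (gr (AC.GG a) n).toNat) := TR_iff.2 h1
    have h2' : TR (fun n => (D n).toNat) (fun n => (gr (FM.GG C) n).toNat) := TR_iff.2 h2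
    apply hBool
    apply hB
    · exact TR.trans h1' (TR.trans (gr_TR _) (AC.limC_GG a).TR_K)
    · exact TR.trans h2' (gr_TR _)

end Pool.Agent.Results.MP_471da3_lc.AlmostCompletePair
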